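import Pool.Agent.TH518.CW.Fin
import Pool.Agent.TH885.NW.Prop

set_option autoImplicit false

/-!
# General collisions of `r` fat points in every characteristic

For every field `k` (of any characteristic), every `r ≥ 10`, every `m` and all `(c, a)` outside a
hypersurface, the forms of degree `d` through the subscheme of the plane with ideal
`(y - (a₀ + a₁ x + ... + a_(r-1) x ^ (r-1)), (x - c) ^ r) ^ m` have the expected dimension for all
`d ≤ m √r` and for all `d ≥ (m + 1) √r - 3`.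
-/

namespace Pool.Agent.Results.MP_e6aa12_ag.AllCharacteristicsWindow

open Polynomial

universe u

/-- The forms of degree `d` in three variables whose dehomogenisation lies in the ideal
`(y - ∑ a_j x ^ j, (x - c) ^ r) ^ m` of `k[x][y]`. -/
noncomputable def forms {k : Type u} [Field k] {r : ℕ} (m : ℕ) (c : k) (a : Fin r → k) (d : ℕ) :
    Submodule k (MvPolynomial (Fin 3) k) :=
  MvPolynomial.homogeneousSubmodule (Fin 3) k d ⊓
    (Submodule.restrictScalars k
      ((Ideal.span {X - C (∑ j : Fin r, C (a j) * X ^ (j : ℕ)), C ((X - C c) ^ r)} :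
        Ideal k[X][X]) ^ m)).comap
      (MvPolynomial.aeval ![C X, X, 1] :
        MvPolynomial (Fin 3) k →ₐ[k] k[X][X]).toLinearMap

/-- Over every field, for all `(c, a)` outside a hypersurface, the space of forms has the expected
dimension in all degrees `d` in the set `S`. -/
def Expected (r m : ℕ) (S : Set ℕ) : Prop :=
  ∀ (k : Type u) [Field k],
    ∃ F : MvPolynomial (Fin (r + 1)) k, F ≠ 0 ∧
      ∀ (c : k) (a : Fin r → k), MvPolynomial.eval (Fin.cons c a : Fin (r + 1) → k) F ≠ 0 →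
        ∀ d ∈ S, Module.finrank k (forms m c a d) = Nat.choose (d + 2) 2 - r * Nat.choose (m + 1) 2

theorem Expected.mono {r m : ℕ} {S S' : Set ℕ} (h : Expected.{u} r m S') (hS : S ⊆ S') :
    Expected.{u} r m S := by
  intro k _
  obtain ⟨F, hF, hF'⟩ := h k
  exact ⟨F, hF, fun c a hc d hd => hF' c a hc d (hS hd)⟩

theorem result :
    (∀ r m : ℕ, 10 ≤ r →
      Expected.{u} r m {d | (d : ℝ) ≤ Real.sqrt r * m ∨ Real.sqrt r * (m + 1) ≤ d + 3}) ∧
    (∀ m : ℕ, Expected.{u} 16 m Set.univ) ∧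
    (∀ r m : ℕ, 10 ≤ r → r ≤ 15 → ∃ d₀ : ℕ, Expected.{u} r m {d | d ≠ d₀}) ∧
    ∀ r : ℕ, 10 ≤ r → r ≤ 15 → ∀ ε : ℝ, 0 < ε → ∃ M₀ : ℕ, ∀ M : ℕ, M₀ ≤ M →
      (Set.ncard {m : ℕ | m < M ∧ ¬ Expected.{u} r m Set.univ} : ℝ) ≤
        (Real.sqrt r - 3 + ε) * M := by
  classical
  have h1 : ∀ r m : ℕ, 10 ≤ r →
      Expected.{u} r m {d | (d : ℝ) ≤ Real.sqrt r * m ∨ Real.sqrt r * (m + 1) ≤ d + 3} := by
    intro r m hr k _
    obtain ⟨F, hF, hF'⟩ := Pool.Agent.TH518.CW.coll_all (m := m) hr k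
    exact ⟨F, hF, fun c a hc d hd => hF' c a hc d hd⟩
  have h2 : ∀ r m : ℕ, 10 ≤ r → ¬ Expected.{u} r m Set.univ → ∃ D : ℤ,
      Real.sqrt r * m < D ∧ (D : ℝ) < Real.sqrt r * m + (Real.sqrt r - 3) := by
    intro r m hr hbad
    by_contra hcon
    push Not at hcon
    refine hbad ((h1 r m hr).mono fun d _ => ?_)
    by_cases h3 : (d : ℝ) ≤ Real.sqrt r * m
    · exact Or.inl h3
    · right
      have h4 := hcon d (by push_cast; exact not_le.1 h3)
      push_cast at h4
      linarith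
  refine ⟨h1, fun m => ?_, fun r m hr hr' => ?_, fun r hr hr' ε hε => ?_⟩
  · by_contra hbad
    obtain ⟨D, hD1, hD2⟩ := h2 16 m (by norm_num) hbad
    have h3 : Real.sqrt ((16 : ℕ) : ℝ) = 4 := by
      have : ((16 : ℕ) : ℝ) = 4 ^ 2 := by norm_num
      rw [this]
      exact Real.sqrt_sq (by norm_num)
    rw [h3] at hD1 hD2
    have h4 : (4 * m : ℤ) < D := by exact_mod_cast hD1
    have h5 : (D : ℝ) < ((4 * m + 1 : ℤ) : ℝ) := by push_cast; linarith
    have h6 : D < 4 * m + 1 := by exact_mod_cast h5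
    omega
  · have hs4 : Real.sqrt r ≤ 4 := by
      rw [Real.sqrt_le_left (by norm_num)]
      have : (r : ℝ) ≤ 15 := by exact_mod_cast hr'
      linarith
    have hs0 : 0 ≤ Real.sqrt r := Real.sqrt_nonneg _
    refine ⟨⌊Real.sqrt r * m⌋₊ + 1, (h1 r m hr).mono fun d hd => ?_⟩
    rcases Nat.lt_or_ge d (⌊Real.sqrt r * m⌋₊ + 1) with h3 | h3
    · left
      have h4 : d ≤ ⌊Real.sqrt r * m⌋₊ := by omega
      have h5 : (d : ℝ) ≤ (⌊Real.sqrt r * m⌋₊ : ℝ) := by exact_mod_cast h4
      exact h5.trans (Nat.floor_le (by positivity))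
    · right
      have hd' : d ≠ ⌊Real.sqrt r * m⌋₊ + 1 := hd
      have h4 : ⌊Real.sqrt r * m⌋₊ + 2 ≤ d := by omega
      have h5 : ((⌊Real.sqrt r * m⌋₊ : ℕ) : ℝ) + 2 ≤ d := by exact_mod_cast h4
      have h6 := Nat.lt_floor_add_one (Real.sqrt r * m)
      have h7 : Real.sqrt r * (m + 1) = Real.sqrt r * m + Real.sqrt r := by ring
      rw [h7]
      linarith
  · have hrR : (10 : ℝ) ≤ r := by exact_mod_cast hr
    have hs3 : 3 < Real.sqrt r := by
      rw [Real.lt_sqrt (by norm_num)]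
      linarith
    have hirr : Irrational (Real.sqrt r) := by
      rw [irrational_sqrt_natCast_iff]
      rintro ⟨q, hq⟩
      have hq1 : q ≤ 3 := by
        by_contra hcon
        have : 4 * 4 ≤ q * q := Nat.mul_le_mul (by omega) (by omega)
        omega
      have : q * q ≤ 3 * 3 := Nat.mul_le_mul hq1 hq1
      omega
    obtain ⟨M0, hM0⟩ := Pool.Agent.TH885.NW.count_sharp hirr 0 0 (Real.sqrt r - 3)
      (by linarith) hε
    refine ⟨⌈M0⌉₊, fun M hM => ?_⟩
    have hfin : {m : ℕ | m < M ∧ ¬ Expected.{u} r m Set.univ}.Finite :=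
      (Set.finite_lt_nat M).subset fun m hm => hm.1
    have h3 := hM0 M ((Nat.le_ceil M0).trans (by exact_mod_cast hM)) hfin.toFinset
      (fun m hm => ((Set.Finite.mem_toFinset hfin).1 hm).1) (fun m hm => by
        obtain ⟨D, hD1, hD2⟩ := h2 r m hr ((Set.Finite.mem_toFinset hfin).1 hm).2
        exact ⟨D, by linarith, by linarith⟩)
    rw [Set.ncard_eq_toFinset_card _ hfin]
    rw [zero_add] at h3
    exact h3

end Pool.Agent.Results.MP_e6aa12_ag.AllCharacteristicsWindow
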