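import Pool.Agent.TH518.CW.TwoC
import Pool.Agent.TH885.NW.Prop

set_option autoImplicit false

/-!
# Collisions of eleven and of thirteen fat points in every characteristic

Let `r` be eleven or thirteen. For every field `k` (of any characteristic), every `m` and all
`(c, a)` outside a hypersurface, the forms of degree `d` through the subscheme of the plane with
ideal `(y - (a₀ + a₁ x + ... + a_(r-1) x ^ (r-1)), (x - c) ^ r) ^ m` have the expected dimension in
every degree `d` which is not a multiple of three, and in every degree `d ≤ m √r` or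
`d ≥ m √r + (√r - 3) / 2`.
-/

namespace Pool.Agent.Results.MP_e6aa12_ag.ElevenAndThirteen

open Polynomial

universe u

/-- The forms of degree `d` in three variables whose dehomogenisation lies in the ideal
`(y - ∑ a_j x ^ j, (x - c) ^ r) ^ m` of `k[x][y]`. -/
noncomputable def forms {k : Type u} [Field k] {r : ℕ} (m : ℕ) (c : k) (a : Fin r → k) (d : ℕ) :
    Submodule k (MvPolynomial (Fin 3) k) :=
  MvPolynomial.homogeneousSubmodule (Fin 3) k d ⊓
    (Submodule.restrictScalars k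
      ((Ideal.span {X - C (∑ j : Fin r, C (a j) * X ^ (j : ℕ)), C ((X - C c) ^ r)} :
        Ideal k[X][X]) ^ m)).comap
      (MvPolynomial.aeval ![C X, X, 1] :
        MvPolynomial (Fin 3) k →ₐ[k] k[X][X]).toLinearMap

/-- Over every field, for all `(c, a)` outside a hypersurface, the space of forms has the expected
dimension in all degrees `d` in the set `S`. -/
def Expected (r m : ℕ) (S : Set ℕ) : Prop :=
  ∀ (k : Type u) [Field k],
    ∃ F : MvPolynomial (Fin (r + 1)) k, F ≠ 0 ∧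
      ∀ (c : k) (a : Fin r → k), MvPolynomial.eval (Fin.cons c a : Fin (r + 1) → k) F ≠ 0 →
        ∀ d ∈ S, Module.finrank k (forms m c a d) = Nat.choose (d + 2) 2 - r * Nat.choose (m + 1) 2

theorem Expected.mono {r m : ℕ} {S S' : Set ℕ} (h : Expected.{u} r m S') (hS : S ⊆ S') :
    Expected.{u} r m S := by
  intro k _
  obtain ⟨F, hF, hF'⟩ := h k
  exact ⟨F, hF, fun c a hc d hd => hF' c a hc d (hS hd)⟩

theorem result (r : ℕ) (hr : r = 11 ∨ r = 13) :
    (∀ m : ℕ, Expected.{u} r m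
      {d | ¬ 3 ∣ d ∨ (d : ℝ) ≤ Real.sqrt r * m ∨ Real.sqrt r * (2 * m + 1) ≤ 2 * d + 3}) ∧
    (∀ m : ℕ, ∃ d₀ : ℕ, 3 ∣ d₀ ∧ Expected.{u} r m {d | d ≠ d₀}) ∧
    ∀ ε : ℝ, 0 < ε → ∃ M₀ : ℕ, ∀ M : ℕ, M₀ ≤ M →
      (Set.ncard {m : ℕ | m < M ∧ ¬ Expected.{u} r m Set.univ} : ℝ) ≤
        ((Real.sqrt r - 3) / 6 + ε) * M := by
  classical
  have h1 : ∀ m : ℕ, Expected.{u} r m
      {d | ¬ 3 ∣ d ∨ (d : ℝ) ≤ Real.sqrt r * m ∨ Real.sqrt r * (2 * m + 1) ≤ 2 * d + 3} := by
    intro m k _
    rcases hr with rfl | rfl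
    · obtain ⟨F, hF, hF'⟩ := Pool.Agent.TH518.CW.eleven_coll (m := m) k
      exact ⟨F, hF, fun c a hc d hd => hF' c a hc d hd⟩
    · obtain ⟨F, hF, hF'⟩ := Pool.Agent.TH518.CW.thirteen_coll (m := m) k
      exact ⟨F, hF, fun c a hc d hd => hF' c a hc d hd⟩
  have h2 : ∀ m : ℕ, ¬ Expected.{u} r m Set.univ → ∃ D : ℤ,
      Real.sqrt r * m < 3 * D ∧ 3 * (D : ℝ) < Real.sqrt r * m + (Real.sqrt r - 3) / 2 := by
    intro m hbad
    by_contra hcon
    push Not at hcon
    refine hbad ((h1 m).mono fun d _ => ?_)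
    by_cases h3 : (d : ℝ) ≤ Real.sqrt r * m
    · exact Or.inr (Or.inl h3)
    · by_cases h5 : 3 ∣ d
      · right; right
        obtain ⟨e, he⟩ := h5
        have heR : (d : ℝ) = 3 * e := by rw [he]; push_cast; ring
        have h4 := hcon e (by push_cast; rw [← heR]; exact not_le.1 h3)
        push_cast at h4
        rw [← heR] at h4
        linarith
      · exact Or.inl h5
  have hr11 : 11 ≤ r := by omega
  have hr13 : r ≤ 13 := by omega
  have hrR : (10 : ℝ) ≤ r := by
    have : (11 : ℝ) ≤ r := by exact_mod_cast hr11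
    linarith
  have hs3 : 3 < Real.sqrt r := by
    rw [Real.lt_sqrt (by norm_num)]
    linarith
  have hs4 : Real.sqrt r ≤ 4 := by
    rw [Real.sqrt_le_left (by norm_num)]
    have : (r : ℝ) ≤ 13 := by exact_mod_cast hr13
    linarith
  have hirr : Irrational (Real.sqrt r) := by
    rw [irrational_sqrt_natCast_iff]
    rintro ⟨q, hq⟩
    have hq1 : q ≤ 3 := by
      by_contra hcon
      have : 4 * 4 ≤ q * q := Nat.mul_le_mul (by omega) (by omega)
      omega
    have : q * q ≤ 3 * 3 := Nat.mul_le_mul hq1 hq1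
    omega
  refine ⟨h1, fun m => ?_, fun ε hε => ?_⟩
  · refine ⟨3 * (⌊Real.sqrt r * m / 3⌋₊ + 1), ⟨_, rfl⟩, (h1 m).mono fun d hd => ?_⟩
    by_cases h3 : 3 ∣ d
    · right
      obtain ⟨e, rfl⟩ := h3
      have hne : 3 * e ≠ 3 * (⌊Real.sqrt r * m / 3⌋₊ + 1) := hd
      rcases Nat.lt_or_ge e (⌊Real.sqrt r * m / 3⌋₊ + 1) with h4 | h4
      · left
        have h5 : e ≤ ⌊Real.sqrt r * m / 3⌋₊ := by omega
        have h6 : (e : ℝ) ≤ (⌊Real.sqrt r * m / 3⌋₊ : ℝ) := by exact_mod_cast h5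
        have h7 := h6.trans (Nat.floor_le (by positivity))
        push_cast
        linarith
      · right
        have h5 : ⌊Real.sqrt r * m / 3⌋₊ + 2 ≤ e := by omega
        have h6 : ((⌊Real.sqrt r * m / 3⌋₊ : ℕ) : ℝ) + 2 ≤ e := by exact_mod_cast h5
        have h7 := Nat.lt_floor_add_one (Real.sqrt r * m / 3)
        push_cast
        linarith
    · exact Or.inl h3
  · have hirr3 : Irrational (Real.sqrt r / 3) := by
      have := hirr.div_natCast (m := 3) (by norm_num)
      push_cast at this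
      exact this
    obtain ⟨M0, hM0⟩ := Pool.Agent.TH885.NW.count_sharp hirr3 0 0 ((Real.sqrt r - 3) / 6)
      (by linarith) hε
    refine ⟨⌈M0⌉₊, fun M hM => ?_⟩
    have hfin : {m : ℕ | m < M ∧ ¬ Expected.{u} r m Set.univ}.Finite :=
      (Set.finite_lt_nat M).subset fun m hm => hm.1
    have h3 := hM0 M ((Nat.le_ceil M0).trans (by exact_mod_cast hM)) hfin.toFinset
      (fun m hm => ((Set.Finite.mem_toFinset hfin).1 hm).1) (fun m hm => by
        obtain ⟨D, hD1, hD2⟩ := h2 m ((Set.Finite.mem_toFinset hfin).1 hm).2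
        exact ⟨D, by linarith, by linarith⟩)
    rw [Set.ncard_eq_toFinset_card _ hfin]
    rw [zero_add] at h3
    exact h3

end Pool.Agent.Results.MP_e6aa12_ag.ElevenAndThirteen
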