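import Pool.Agent.TH183.QS.Fin
import Pool.Agent.H852.NB.Equi
import Pool.Agent.H46R3.SqCollide
import Pool.Agent.TH885.NW.Prop

set_option autoImplicit false

/-!
# General collisions of `r` fat points, for every `r ≥ 10`

For every `r ≥ 10`, every `m`, every field `k` of characteristic zero and all `(c, a)` outside a
hypersurface, the subscheme of the plane with ideal
`(y - (a₀ + a₁ x + ... + a_(r-1) x ^ (r-1)), (x - c) ^ r) ^ m` lies on no curve of degree `d ≤ m √r`
(if `m ≥ 1`), and the space of forms of degree `d` has the expected dimension for all `d` but at most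
one, and for all `d` for a positive proportion of the `m`.
-/

namespace Pool.Agent.Results.MP_e6aa12_ag.EveryNumberOfPoints

open Polynomial

universe u

/-- The forms of degree `d` in three variables whose dehomogenisation lies in the ideal
`(y - ∑ a_j x ^ j, (x - c) ^ r) ^ m` of `k[x][y]`. -/
noncomputable def forms {k : Type u} [Field k] {r : ℕ} (m : ℕ) (c : k) (a : Fin r → k) (d : ℕ) :
    Submodule k (MvPolynomial (Fin 3) k) :=
  MvPolynomial.homogeneousSubmodule (Fin 3) k d ⊓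
    (Submodule.restrictScalars k
      ((Ideal.span {X - C (∑ j : Fin r, C (a j) * X ^ (j : ℕ)), C ((X - C c) ^ r)} :
        Ideal k[X][X]) ^ m)).comap
      (MvPolynomial.aeval ![C X, X, 1] :
        MvPolynomial (Fin 3) k →ₐ[k] k[X][X]).toLinearMap

/-- Over every field of characteristic zero, for all `(c, a)` outside a hypersurface, the space of
forms has the expected dimension in all degrees `d` in the set `S`. -/
def Expected (r m : ℕ) (S : Set ℕ) : Prop :=
  ∀ (k : Type u) [Field k] [CharZero k],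
    ∃ F : MvPolynomial (Fin (r + 1)) k, F ≠ 0 ∧
      ∀ (c : k) (a : Fin r → k), MvPolynomial.eval (Fin.cons c a : Fin (r + 1) → k) F ≠ 0 →
        ∀ d ∈ S, Module.finrank k (forms m c a d) = Nat.choose (d + 2) 2 - r * Nat.choose (m + 1) 2

/-- Over every field of characteristic zero, for all `(c, a)` outside a hypersurface, there are no
forms in the degrees `d` in the set `S`. -/
def Vanish (r m : ℕ) (S : Set ℕ) : Prop :=
  ∀ (k : Type u) [Field k] [CharZero k],
    ∃ F : MvPolynomial (Fin (r + 1)) k, F ≠ 0 ∧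
      ∀ (c : k) (a : Fin r → k), MvPolynomial.eval (Fin.cons c a : Fin (r + 1) → k) F ≠ 0 →
        ∀ d ∈ S, forms m c a d = ⊥

theorem result :
    (∀ r m : ℕ, 10 ≤ r → ∃ d₀ : ℕ, Expected.{u} r m {d | d ≠ d₀}) ∧
    (∀ r m : ℕ, 10 ≤ r →
      Expected.{u} r m {d | (d : ℝ) < Real.sqrt r * m ∨ Real.sqrt r * (m + 1) < d + 3 ∨
        2 * (d : ℝ) + 3 + (2 / 3 + 9 / (4 * Real.sqrt r)) < Real.sqrt r * (2 * m + 1) ∨
        Real.sqrt r * (2 * m + 1) + (2 / 3 + 1 / (4 * Real.sqrt r)) < 2 * d + 3}) ∧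
    (∀ r m : ℕ, 10 ≤ r → 0 < m → Vanish.{u} r m {d | (d : ℝ) ≤ Real.sqrt r * m}) ∧
    (∀ r : ℕ, 10 ≤ r → ∀ ε : ℝ, 0 < ε → ∃ M₀ : ℕ, ∀ M : ℕ, M₀ ≤ M →
      (Set.ncard {m : ℕ | m < M ∧ ¬ Expected.{u} r m Set.univ} : ℝ) ≤
        ((min (Real.sqrt r - 3) (2 / 3 + 9 / (4 * Real.sqrt r)) +
          min (Real.sqrt r - 3) (2 / 3 + 1 / (4 * Real.sqrt r))) / 2 + ε) * M) ∧
    ∀ ε : ℝ, 0 < ε → ∃ N : ℕ, ∀ r : ℕ, N ≤ r →
      (∀ m : ℕ, Expected.{u} r m {d | ε ≤ |2 * (d : ℝ) + 3 - Real.sqrt r * (2 * m + 1)|}) ∧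
      ∃ M₀ : ℕ, ∀ M : ℕ, M₀ ≤ M →
        (Set.ncard {m : ℕ | m < M ∧ ¬ Expected.{u} r m Set.univ} : ℝ) ≤ ε * M := by
  classical
  have hsqr : ∀ r : ℕ, 10 ≤ r → IsSquare r → ∀ M : ℕ,
      Set.ncard {m : ℕ | m < M ∧ ¬ Expected.{u} r m Set.univ} = 0 := by
    intro r hr hsq M
    have hset : {m : ℕ | m < M ∧ ¬ Expected.{u} r m Set.univ} = ∅ := by
      rw [Set.eq_empty_iff_forall_notMem]
      rintro m ⟨-, hm⟩
      apply hm
      intro k _ _
      obtain ⟨F, hF, hF'⟩ := Pool.Agent.TH183.QS.coll_start (m := m) hr (Or.inr hsq) k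
      exact ⟨F, hF, fun c a hc d _ => hF' c a hc d⟩
    rw [hset, Set.ncard_empty]
  refine ⟨fun r m hr => ?_, fun r m hr k _ _ => ?_, fun r m hr hm k _ _ => ?_,
    fun r hr ε hε => ?_, fun ε hε => ?_⟩
  · have hrR : (10 : ℝ) ≤ r := by exact_mod_cast hr
    have hs3 : 3 < Real.sqrt r := by
      rw [Real.lt_sqrt (by norm_num)]
      linarith
    obtain ⟨lo, hlo⟩ : ∃ lo, lo = min (Real.sqrt r - 3) (2 / 3 + 9 / (4 * Real.sqrt r)) := ⟨_, rfl⟩
    obtain ⟨hi, hhi⟩ : ∃ hi, hi = min (Real.sqrt r - 3) (2 / 3 + 1 / (4 * Real.sqrt r)) := ⟨_, rfl⟩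
    have hhi0 : 0 ≤ hi := by rw [hhi]; exact le_min (by linarith) (by positivity)
    have hlt : lo + hi < 2 := by
      rw [hlo, hhi]
      rcases le_or_gt r 15 with h | h
      · have h1 : Real.sqrt r < 4 := by
          rw [Real.sqrt_lt' (by norm_num)]
          have : (r : ℝ) ≤ 15 := by exact_mod_cast h
          linarith
        have h2 := min_le_left (Real.sqrt r - 3) (2 / 3 + 9 / (4 * Real.sqrt r))
        have h3 := min_le_left (Real.sqrt r - 3) (2 / 3 + 1 / (4 * Real.sqrt r))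
        linarith
      · have h1 : 4 ≤ Real.sqrt r := by
          apply Real.le_sqrt_of_sq_le
          have : (16 : ℝ) ≤ r := by exact_mod_cast h
          linarith
        have h2 := min_le_right (Real.sqrt r - 3) (2 / 3 + 9 / (4 * Real.sqrt r))
        have h3 := min_le_right (Real.sqrt r - 3) (2 / 3 + 1 / (4 * Real.sqrt r))
        have h4 : 9 / (4 * Real.sqrt r) ≤ 9 / 16 := by
          apply div_le_div_of_nonneg_left (by norm_num) (by norm_num); linarith
        have h5 : 1 / (4 * Real.sqrt r) ≤ 1 / 16 := by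
          apply div_le_div_of_nonneg_left (by norm_num) (by norm_num); linarith
        linarith
    have hm0 : (0 : ℝ) ≤ m := Nat.cast_nonneg m
    have h0 : 0 ≤ (Real.sqrt r * (2 * m + 1) - 3 + hi) / 2 := by
      have h6 : Real.sqrt r * 1 ≤ Real.sqrt r * (2 * m + 1) :=
        mul_le_mul_of_nonneg_left (by linarith) (by linarith)
      linarith
    refine ⟨⌊(Real.sqrt r * (2 * m + 1) - 3 + hi) / 2⌋₊, fun k _ _ => ?_⟩
    obtain ⟨F, hF, hF'⟩ := Pool.Agent.TH183.QS.coll_every hr m k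
    refine ⟨F, hF, fun c a hc d hd => hF' c a hc d ?_⟩
    have hd' : d ≠ ⌊(Real.sqrt r * (2 * m + 1) - 3 + hi) / 2⌋₊ := hd
    by_contra hcon
    push Not at hcon
    obtain ⟨d1, d2, d3, d4⟩ := hcon
    have e1 : Real.sqrt r * (2 * m + 1) = 2 * (Real.sqrt r * m) + Real.sqrt r := by ring
    have e2 : Real.sqrt r * (m + 1) = Real.sqrt r * m + Real.sqrt r := by ring
    have hlo' : Real.sqrt r * (2 * m + 1) - lo ≤ 2 * (d : ℝ) + 3 := by
      rw [hlo]
      rcases min_choice (Real.sqrt r - 3) (2 / 3 + 9 / (4 * Real.sqrt r)) with h | h <;> rw [h] <;>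
        linarith
    have hhi' : 2 * (d : ℝ) + 3 ≤ Real.sqrt r * (2 * m + 1) + hi := by
      rw [hhi]
      rcases min_choice (Real.sqrt r - 3) (2 / 3 + 1 / (4 * Real.sqrt r)) with h | h <;> rw [h] <;>
        linarith
    apply hd'
    symm
    rw [Nat.floor_eq_iff h0]
    constructor
    · linarith
    · linarith
  · obtain ⟨F, hF, hF'⟩ := Pool.Agent.TH183.QS.coll_every hr m k
    exact ⟨F, hF, fun c a hc d hd => hF' c a hc d hd⟩
  · have hbot : ∀ (c : k) (a : Fin r → k) (d : ℕ), Pool.Agent.H932R3.NoForm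
        (Pool.Agent.H932R2.jetIdeal m c a) d → forms m c a d = ⊥ := by
      intro c a d h1
      rw [eq_bot_iff]
      intro f hf
      rw [Submodule.mem_bot]
      exact h1 f hf.1 hf.2
    have hrR : (10 : ℝ) ≤ r := by exact_mod_cast hr
    by_cases hsq : IsSquare r
    · obtain ⟨s, hs⟩ := hsq
      rw [← pow_two] at hs
      subst hs
      have hs4 : 4 ≤ s := by
        by_contra hcon
        rw [not_le] at hcon
        have : s ^ 2 ≤ 3 ^ 2 := Nat.pow_le_pow_left (by omega) 2
        omega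
      obtain ⟨F, hF, hF'⟩ := Pool.Agent.H46R3.Sq.sq_collision (K := k) hs4 hm
        (fun q hq _ => by exact_mod_cast hq.ne')
      refine ⟨F, hF, fun c a hc d hd => hbot c a d ((hF' c a hc).mono ?_)⟩
      have hd' : (d : ℝ) ≤ Real.sqrt ((s ^ 2 : ℕ) : ℝ) * m := hd
      rw [Nat.cast_pow, Real.sqrt_sq (Nat.cast_nonneg s), mul_comm] at hd'
      exact_mod_cast hd'
    · obtain ⟨F, hF, hF'⟩ := Pool.Agent.TH183.QS.coll_wrap0 (r := r) (m := m) (by omega)
        (PL := fun d : ℕ => (d : ℝ) < m * Real.sqrt r)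
        ⟨⌈m * Real.sqrt r⌉₊, fun d hd => by
          have := hd.le.trans (Nat.le_ceil _)
          exact_mod_cast this⟩
        (fun d hd => Pool.Agent.TH183.QS.empAt_nagata (by omega) hd) k
      refine ⟨F, hF, fun c a hc d hd => hbot c a d (hF' c a hc d ?_)⟩
      have hd' : (d : ℝ) ≤ Real.sqrt r * m := hd
      have hirr : Irrational (Real.sqrt r) := by
        rw [irrational_sqrt_natCast_iff]
        exact hsq
      rcases hd'.lt_or_eq with h | h
      · show (d : ℝ) < m * Real.sqrt r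
        rw [mul_comm]
        exact h
      · exfalso
        have h2 := hirr.mul_natCast hm.ne'
        rw [← h] at h2
        exact (Nat.not_irrational d) h2
  · have hrR : (10 : ℝ) ≤ r := by exact_mod_cast hr
    have hs3 : 3 < Real.sqrt r := by
      rw [Real.lt_sqrt (by norm_num)]
      linarith
    obtain ⟨lo, hlo⟩ : ∃ lo, lo = min (Real.sqrt r - 3) (2 / 3 + 9 / (4 * Real.sqrt r)) := ⟨_, rfl⟩
    obtain ⟨hi, hhi⟩ : ∃ hi, hi = min (Real.sqrt r - 3) (2 / 3 + 1 / (4 * Real.sqrt r)) := ⟨_, rfl⟩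
    have hlo0 : 0 ≤ lo := by rw [hlo]; exact le_min (by linarith) (by positivity)
    have hhi0 : 0 ≤ hi := by rw [hhi]; exact le_min (by linarith) (by positivity)
    rw [← hlo, ← hhi]
    by_cases hsq : IsSquare r
    · refine ⟨0, fun M _ => ?_⟩
      rw [hsqr r hr hsq, Nat.cast_zero]
      positivity
    · have hirr : Irrational (Real.sqrt r) := by
        rw [irrational_sqrt_natCast_iff]
        exact hsq
      obtain ⟨M0, hM0⟩ := Pool.Agent.TH885.NW.count_sharp hirr ((Real.sqrt r - 3) / 2) (lo / 2)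
        (hi / 2) (by linarith) hε
      refine ⟨⌈M0⌉₊, fun M hM => ?_⟩
      have hbad : ∀ m : ℕ, ¬ Expected.{u} r m Set.univ → ∃ D : ℤ,
          Real.sqrt r * m + (Real.sqrt r - 3) / 2 - lo / 2 ≤ D ∧
          (D : ℝ) ≤ Real.sqrt r * m + (Real.sqrt r - 3) / 2 + hi / 2 := by
        intro m hbad
        by_contra hcon
        push Not at hcon
        apply hbad
        intro k _ _
        obtain ⟨F, hF, hF'⟩ := Pool.Agent.TH183.QS.coll_every hr m k
        refine ⟨F, hF, fun c a hc d _ => hF' c a hc d ?_⟩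
        show (d : ℝ) < Real.sqrt r * m ∨ Real.sqrt r * (m + 1) < d + 3 ∨
          2 * (d : ℝ) + 3 + (2 / 3 + 9 / (4 * Real.sqrt r)) < Real.sqrt r * (2 * m + 1) ∨
          Real.sqrt r * (2 * m + 1) + (2 / 3 + 1 / (4 * Real.sqrt r)) < 2 * d + 3
        by_contra hd
        push Not at hd
        obtain ⟨d1, d2, d3, d4⟩ := hd
        have h1 : Real.sqrt r * m + (Real.sqrt r - 3) / 2 - lo / 2 ≤ ((d : ℤ) : ℝ) := by
          rw [Int.cast_natCast, hlo]
          rcases min_choice (Real.sqrt r - 3) (2 / 3 + 9 / (4 * Real.sqrt r)) with h | h <;> rw [h] <;>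
            linarith
        have h2 := hcon _ h1
        rw [Int.cast_natCast, hhi] at h2
        rcases min_choice (Real.sqrt r - 3) (2 / 3 + 1 / (4 * Real.sqrt r)) with h | h <;>
          rw [h] at h2 <;> linarith
      have hset : {m : ℕ | m < M ∧ ¬ Expected.{u} r m Set.univ} =
          ↑((Finset.range M).filter fun m => ¬ Expected.{u} r m Set.univ) := by
        ext m
        simp only [Set.mem_ofPred_eq, Finset.coe_filter, Finset.mem_range]
      rw [hset, Set.ncard_coe_finset]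
      have h1 := hM0 M ((Nat.le_ceil _).trans (by exact_mod_cast hM))
        ((Finset.range M).filter fun m => ¬ Expected.{u} r m Set.univ)
        (fun m hm => Finset.mem_range.1 (Finset.mem_filter.1 hm).1)
        (fun m hm => hbad m (Finset.mem_filter.1 hm).2)
      rwa [← add_div] at h1
  · obtain ⟨η, hη⟩ : ∃ η, η = min (ε / 3) 1 := ⟨_, rfl⟩
    have hη0 : 0 < η := by
      rw [hη]
      exact lt_min (by positivity) one_pos
    have hη1 : η ≤ 1 := by rw [hη]; exact min_le_right _ _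
    have hη3 : 3 * η ≤ ε := by
      have : η ≤ ε / 3 := by rw [hη]; exact min_le_left _ _
      linarith
    obtain ⟨N, hN10, h⟩ := Pool.Agent.TH183.QS.coll_large.{u} hη0
    obtain ⟨Q, hQ⟩ := exists_nat_ge (1 / η)
    refine ⟨N, fun r hr => ?_⟩
    have hmain : ∀ m : ℕ, Expected.{u} r m
        {d | η ≤ |2 * (d : ℝ) + 3 - Real.sqrt r - 2 * (Real.sqrt r * m)|} := by
      intro m k _ _
      obtain ⟨F, hF, hF'⟩ := h r hr m k
      exact ⟨F, hF, fun c a hc d hd => hF' c a hc d hd⟩
    refine ⟨fun m k _ _ => ?_, ?_⟩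
    · obtain ⟨F, hF, hF'⟩ := hmain m k
      refine ⟨F, hF, fun c a hc d hd => hF' c a hc d ?_⟩
      have hd' : ε ≤ |2 * (d : ℝ) + 3 - Real.sqrt r * (2 * m + 1)| := hd
      have e : 2 * (d : ℝ) + 3 - Real.sqrt r * (2 * m + 1) =
          2 * (d : ℝ) + 3 - Real.sqrt r - 2 * (Real.sqrt r * m) := by ring
      rw [e] at hd'
      show η ≤ _
      linarith
    · by_cases hsq : IsSquare r
      · refine ⟨0, fun M _ => ?_⟩
        rw [hsqr r (hN10.trans hr) hsq, Nat.cast_zero]
        positivity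
      · refine ⟨⌈12 * Real.sqrt r * (Q : ℝ) ^ 2⌉₊, fun M hM => ?_⟩
        have hM' : 12 * Real.sqrt r * (Q : ℝ) ^ 2 ≤ M := (Nat.le_ceil _).trans (by exact_mod_cast hM)
        have hgood : ∀ m : ℕ, ¬ Expected.{u} r m Set.univ →
            ∃ d : ℕ, |2 * (d : ℝ) + 3 - Real.sqrt r - 2 * (Real.sqrt r * m)| < η := by
          intro m hbad
          by_contra hcon
          push Not at hcon
          apply hbad
          intro k _ _
          obtain ⟨F, hF, hF'⟩ := hmain m k
          exact ⟨F, hF, fun c a hc d _ => hF' c a hc d (hcon d)⟩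
        have hset : {m : ℕ | m < M ∧ ¬ Expected.{u} r m Set.univ} =
            ↑((Finset.range M).filter fun m => ¬ Expected.{u} r m Set.univ) := by
          ext m
          simp only [Set.mem_ofPred_eq, Finset.coe_filter, Finset.mem_range]
        rw [hset, Set.ncard_coe_finset]
        have hfin : (((Finset.range M).filter fun m => ¬ Expected.{u} r m Set.univ).card : ℝ) ≤
            3 * η * M :=
          Pool.Agent.H852.NB.count_uniform hsq hη0 hη1 hQ hM'
            (fun m hm => Finset.mem_range.1 (Finset.mem_filter.1 hm).1)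
            (fun m hm => hgood m (Finset.mem_filter.1 hm).2)
        exact hfin.trans (mul_le_mul_of_nonneg_right hη3 (Nat.cast_nonneg M))

end Pool.Agent.Results.MP_e6aa12_ag.EveryNumberOfPoints
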